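import Mathlib
import Pool.Agent.Helper65.MT.St

/-!
# Project MT, module RA: the inequality for one n
-/

set_option autoImplicit false

open Finset Pool.Agent.Helper16 Pool.Agent.Helper65.MT

namespace Pool.Agent.Helper72.MT

theorem sum_L (k p : ℕ) (js : Fin (k + 1)) :
    ∑ j : Fin (k + 1), (if j = js then p + 1 else p) = (k + 1) * p + 1 := by
  have h : ∀ j : Fin (k + 1), (if j = js then p + 1 else p) = p + (if j = js then 1 else 0) := by
    intro j
    split_ifs <;> rfl
  rw [Finset.sum_congr rfl (fun j _ => h j), Finset.sum_add_distrib, Finset.sum_const,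
    Finset.sum_ite_eq' Finset.univ js (fun _ => 1)]
  simp

theorem m_RA : StRA := by
  intro hGM hRM hRN hRC n k p hn hk hp hkp hnp
  classical
  set a : ℤ := round (Real.exp n) with ha
  set xs : Fin (k + 1) → ℤ := fun i => ((i : ℕ) : ℤ) with hxs
  have hxinj : Function.Injective xs := by
    intro i j h
    have h' : ((i : ℕ) : ℤ) = ((j : ℕ) : ℤ) := h
    exact Fin.ext (by exact_mod_cast h')
  have hp2 := hp.two_le
  have hmono : StrictMono (fun i : Fin (k + 1) => (i : ℕ)) := fun i j h => h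
  -- divisibility
  have hV1 : ∀ j, ∏ i ∈ Finset.univ.erase j, (xs j - xs i) ∣ ((k.factorial : ℕ) : ℤ) :=
    fun j => dvd_factorial_nodes (fun i : Fin (k + 1) => (i : ℕ)) hmono k
      (fun i => by have := i.2; omega) j
  have hV2 : ∀ i j, i ≠ j → (xs j - xs i) ∣ ((Nat.lcmUpto k : ℕ) : ℤ) := by
    intro i j hij
    rw [← Int.natAbs_dvd, Int.natCast_dvd_natCast]
    unfold Nat.lcmUpto
    have hne : xs j - xs i ≠ 0 := sub_ne_zero.mpr (fun h => hij (hxinj h).symm)
    have h1 : (xs j - xs i).natAbs ∈ Finset.Icc 1 k := by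
      rw [Finset.mem_Icc]
      have hi := i.2
      have hj := j.2
      have h2 : xs j = ((j : ℕ) : ℤ) := rfl
      have h3 : xs i = ((i : ℕ) : ℤ) := rfl
      omega
    exact Finset.dvd_lcm (f := id) h1
  have hpk : ¬ p ∣ k.factorial := by
    rw [hp.dvd_factorial]
    omega
  have hpV1 : ¬ (p : ℤ) ∣ ((k.factorial : ℕ) : ℤ) := by
    rw [Int.natCast_dvd_natCast]
    exact hpk
  have hpV2 : ¬ (p : ℤ) ∣ ((Nat.lcmUpto k : ℕ) : ℤ) := by
    rw [Int.natCast_dvd_natCast]
    exact fun h => hpk (h.trans (Nat.lcmUpto_dvd_factorial k))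
  have hpn : ¬ p ∣ n := fun h => by
    have := Nat.le_of_dvd hn h
    omega
  set js : Fin (k + 1) := 0 with hjs
  have hb : ¬ (p : ℤ) ∣ (fun j : Fin (k + 1) => a ^ (j : ℕ)) js := by
    have : (fun j : Fin (k + 1) => a ^ (j : ℕ)) js = 1 := by simp [hjs]
    rw [this]
    intro h
    have := Int.le_of_dvd one_pos h
    omega
  have hmain := hRN (k + 1) xs hxinj n (fun j => a ^ (j : ℕ)) p hp
    ((k.factorial : ℕ) : ℤ) ((Nat.lcmUpto k : ℕ) : ℤ) hV1 hV2 hpV1 hpV2 hpn js hb
  -- abbreviations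
  set L : Fin (k + 1) → ℕ := fun j => if j = js then p + 1 else p with hL
  set X : Fin (k + 1) → ℝ := fun i => (xs i : ℝ) with hX
  have hXv : ∀ j : Fin (k + 1), X j = (j : ℕ) := by
    intro j
    simp [hX, hxs]
  have hXinj : Function.Injective X := by
    intro i j h
    apply hxinj
    have h' : ((xs i : ℤ) : ℝ) = ((xs j : ℤ) : ℝ) := h
    exact_mod_cast h'
  have hLpos : ∀ j, 0 < L j := by
    intro j
    simp only [hL]
    split_ifs <;> omega
  have hsum : ∑ i, L i - 1 = (k + 1) * p := by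
    rw [hL, sum_L k p js]
    rfl
  have hR := hRM hGM (k + 1) X L k n hXinj hLpos (by positivity) (by positivity)
    (fun j => ⟨by rw [hXv]; positivity, by
      rw [hXv]
      have := j.2
      exact_mod_cast (by omega : (j : ℕ) ≤ k)⟩)
  rw [hsum] at hR
  have hd0 : 0 ≤ dst n := abs_nonneg _
  have hen : 1 ≤ Real.exp n := Real.one_le_exp (by positivity)
  -- the differences
  have hdiff : ∀ j : Fin (k + 1), |((a ^ (j : ℕ) : ℤ) : ℝ) - Real.exp (X j * n)| ≤
      k * Real.exp ((n + 1) * k) * dst n := by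
    intro j
    have h1 : Real.exp (X j * n) = Real.exp n ^ (j : ℕ) := by
      rw [hXv, Real.exp_nat_mul]
    rw [h1, Int.cast_pow]
    refine (abs_pow_sub_pow_le (a : ℝ) (Real.exp n) (j : ℕ)).trans ?_
    have h2 : |(a : ℝ) - Real.exp n| = dst n := by
      rw [abs_sub_comm]
      rfl
    rw [h2]
    have h3 : max |(a : ℝ)| |Real.exp (n : ℝ)| ≤ Real.exp (n + 1) := by
      have h5 : Real.exp n * 2 ≤ Real.exp (n + 1) := by
        rw [Real.exp_add]
        have := Real.add_one_le_exp (1 : ℝ)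
        nlinarith
      apply max_le
      · have h4 : |(a : ℝ) - Real.exp n| ≤ 1 / 2 := by
          rw [abs_sub_comm]
          exact abs_sub_round _
        have h6 := abs_le.mp h4
        rw [abs_le]
        constructor <;> linarith
      · rw [abs_of_pos (Real.exp_pos _)]
        linarith
    have hj : (j : ℕ) ≤ k := by
      have := j.2
      omega
    have hE : 1 ≤ Real.exp ((n : ℝ) + 1) := Real.one_le_exp (by positivity)
    have h7 : max |(a : ℝ)| |Real.exp (n : ℝ)| ^ ((j : ℕ) - 1) ≤ Real.exp ((n + 1) * k) := by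
      calc max |(a : ℝ)| |Real.exp (n : ℝ)| ^ ((j : ℕ) - 1)
          ≤ Real.exp (n + 1) ^ ((j : ℕ) - 1) := by
            apply pow_le_pow_left₀ _ h3
            exact le_max_of_le_left (abs_nonneg _)
        _ ≤ Real.exp (n + 1) ^ k := pow_le_pow_right₀ hE (by omega)
        _ = Real.exp ((n + 1) * k) := by rw [← Real.exp_nat_mul, mul_comm]
    have h8 : ((j : ℕ) : ℝ) ≤ k := by exact_mod_cast hj
    calc dst n * ((j : ℕ) : ℝ) * max |(a : ℝ)| |Real.exp (n : ℝ)| ^ ((j : ℕ) - 1)
        ≤ dst n * k * Real.exp ((n + 1) * k) := by gcongr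
      _ = k * Real.exp ((n + 1) * k) * dst n := by ring
  -- splitting
  have hsplit : ∑ j, A X L n j * ((a ^ (j : ℕ) : ℤ) : ℝ) =
      ∑ j, A X L n j * Real.exp (X j * n) +
        ∑ j, A X L n j * (((a ^ (j : ℕ) : ℤ) : ℝ) - Real.exp (X j * n)) := by
    rw [← Finset.sum_add_distrib]
    refine Finset.sum_congr rfl fun j _ => ?_
    ring
  set P : ℝ := (p.factorial : ℝ) with hP
  set K : ℝ := (k.factorial : ℝ) with hK
  set U : ℝ := (Nat.lcmUpto k : ℝ) with hU
  have hP0 : 0 ≤ P := by positivity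
  have hK0 : 0 ≤ K := by positivity
  have hU0 : 0 ≤ U := by positivity
  have hmain' : 1 ≤ |P * K ^ (p + 1) * U ^ p * ∑ j, A X L n j * ((a ^ (j : ℕ) : ℤ) : ℝ)| := by
    have h := hmain
    push_cast at h ⊢
    exact h
  rw [hsplit, mul_add] at hmain'
  refine hmain'.trans ((abs_add_le _ _).trans ?_)
  have hc0 : 0 ≤ P * K ^ (p + 1) * U ^ p := by positivity
  refine add_le_add ?_ ?_
  · rw [abs_mul, abs_of_nonneg hc0]
    exact mul_le_mul_of_nonneg_left hR hc0
  · rw [Finset.mul_sum]
    refine (Finset.abs_sum_le_sum_abs _ _).trans ?_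
    have hterm : ∀ j ∈ (Finset.univ : Finset (Fin (k + 1))),
        |P * K ^ (p + 1) * U ^ p * (A X L n j * (((a ^ (j : ℕ) : ℤ) : ℝ) - Real.exp (X j * n)))| ≤
          (P * U ^ p * (K * 4 ^ ((k + 1) * p) * Real.exp n)) *
            (k * Real.exp ((n + 1) * k) * dst n) := by
      intro j _
      have e1 : P * K ^ (p + 1) * U ^ p *
          (A X L n j * (((a ^ (j : ℕ) : ℤ) : ℝ) - Real.exp (X j * n))) =
          (P * U ^ p) * (K ^ (p + 1) * A X L n j) *
            (((a ^ (j : ℕ) : ℤ) : ℝ) - Real.exp (X j * n)) := by ring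
      rw [e1, abs_mul, abs_mul, abs_of_nonneg (by positivity : 0 ≤ P * U ^ p)]
      have h1 := hRC k p n hp.one_le js j
      have h2 := hdiff j
      refine mul_le_mul (mul_le_mul_of_nonneg_left h1 (by positivity)) h2 (abs_nonneg _) ?_
      positivity
    refine (Finset.sum_le_sum hterm).trans (le_of_eq ?_)
    rw [Finset.sum_const, Finset.card_univ, Fintype.card_fin, nsmul_eq_mul]
    push_cast
    ring

end Pool.Agent.Helper72.MT
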